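import Pool.Agent.Helper892.ER.Prox
import Pool.Agent.Helper892.VE.Poly
import Pool.Agent.Helper892.VE.Pts

/-!
The truncated counting function on the square of an elliptic curve.
-/

set_option autoImplicit false

open IsDedekindDomain NumberField Module Height Polynomial

namespace Pool.Agent.Helper892.TC

open Pool.Agent.Helper892.VE Pool.Agent.Helper892.ER Pool.Agent.Y720.MZ

variable {k : Type} [Field k] [NumberField k]

lemma qq_le_av (p : HeightOneSpectrum (𝓞 k)) {z : k} (h : 1 < av p z) : qq p ≤ av p z := by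
  have h0 : av p z ≠ 0 := by linarith
  have hz : z ≠ 0 := by
    rintro rfl
    simp at h0
  have h1 : av p z⁻¹ < 1 := by
    rw [map_inv₀]
    exact inv_lt_one_of_one_lt₀ h
  have h2 : p.valuation k z⁻¹ ≤ WithZero.exp (-1 : ℤ) := by
    have h3 : ¬ (WithZero.exp (0 : ℤ) ≤ p.valuation k z⁻¹) := by
      intro h4
      have h5 : ((WithZeroMulInt.toNNReal (HeightOneSpectrum.absNorm_ne_zero p)
          (WithZero.exp (0 : ℤ)) : NNReal) : ℝ) ≤ av p z⁻¹ := by
        rw [av_def, NNReal.coe_le_coe]
        exact (WithZeroMulInt.toNNReal_strictMono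
          (HeightOneSpectrum.one_lt_absNorm_nnreal p)).le_iff_le.2 h4
      rw [toNNReal_exp, zpow_zero] at h5
      linarith
    have h6 : p.valuation k z⁻¹ ≠ 0 := by
      rw [Ne, map_eq_zero]
      exact inv_ne_zero hz
    obtain ⟨m, hm⟩ : ∃ m : ℤ, p.valuation k z⁻¹ = WithZero.exp m :=
      ⟨WithZero.log (p.valuation k z⁻¹), (WithZero.exp_log h6).symm⟩
    rw [hm] at h3 ⊢
    rw [WithZero.exp_le_exp] at h3 ⊢
    omega
  have h3 := (av_le_iff p z⁻¹ (-1)).2 h2
  rw [map_inv₀, zpow_neg, zpow_one] at h3
  have h4 := one_lt_qq p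
  exact (inv_le_inv₀ (by linarith) (by linarith)).1 h3

/-- the duplication increases the absolute value -/
lemma av_dd {p : HeightOneSpectrum (𝓞 k)} {a b c : 𝓞 k} {x : k} (hx : 1 < av p x)
    (hd : dD (a : k) b c x ≠ 0) : av p x ≤ av p (dd (a : k) b c x) := by
  have hna := av_na p
  have ha := av_int p a
  have hb := av_int p b
  have hc := av_int p c
  have h2n : ∀ n : ℕ, av p (n : k) ≤ 1 := fun n => by
    have := av_int p (n : 𝓞 k)
    simpa using this
  set t := av p x with ht
  have ht0 : 0 < t := by linarith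
  have e1 : av p (dD (a : k) b c x) ≤ t ^ 3 := by
    have e : dD (a : k) b c x = (4 : ℕ) * (x ^ 3 + (a * x ^ 2 + (b * x + c))) := by
      rw [dD_eq]
      unfold ff
      push_cast
      ring
    rw [e, map_mul]
    have h3 : av p (x ^ 3 + (a * x ^ 2 + (b * x + c))) ≤ t ^ 3 := by
      refine na_add_le hna (by rw [map_pow]) (na_add_le hna ?_ (na_add_le hna ?_ ?_))
      · rw [map_mul, map_pow, ← ht]
        nlinarith [pow_pos ht0 2, apply_nonneg (av p) (a : k)]
      · rw [map_mul, ← ht]
        nlinarith [pow_pos ht0 2, apply_nonneg (av p) (b : k), mul_pos ht0 (pow_pos ht0 2),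
          mul_nonneg ht0.le (sub_nonneg.2 hb)]
      · exact hc.trans (one_le_pow₀ hx.le)
    have h4 := h2n 4
    nlinarith [apply_nonneg (av p) (x ^ 3 + (a * x ^ 2 + (b * x + c)) : k),
      apply_nonneg (av p) (((4 : ℕ) : k)), pow_pos ht0 3]
  have e2 : av p (dN (a : k) b c x) = t ^ 4 := by
    have e : dN (a : k) b c x = x ^ 4 + (-((2 : ℕ) * (b * x ^ 2)) + (-((8 : ℕ) * (c * x)) +
        (b ^ 2 + -((4 : ℕ) * (a * c))))) := by
      unfold dN
      push_cast
      ring
    rw [e]
    have hlt : av p (-((2 : ℕ) * (b * x ^ 2)) + (-((8 : ℕ) * (c * x)) +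
        (b ^ 2 + -((4 : ℕ) * (a * c)))) : k) < t ^ 4 := by
      have t2 : t ^ 2 < t ^ 4 := pow_lt_pow_right₀ hx (by norm_num)
      have t1 : t < t ^ 4 := by
        calc t = t ^ 1 := (pow_one t).symm
          _ < t ^ 4 := pow_lt_pow_right₀ hx (by norm_num)
      have t0 : 1 < t ^ 4 := one_lt_pow₀ hx (by norm_num)
      have hm : ∀ (n : ℕ) (u : 𝓞 k) (w : k), av p (-((n : k) * ((u : k) * w))) ≤ av p w := by
        intro n u w
        rw [map_neg_eq_map, map_mul, map_mul]
        have h5 := h2n n
        have h6 := av_int p u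
        have h7 := apply_nonneg (av p) w
        have h8 := apply_nonneg (av p) (u : k)
        have h9 := apply_nonneg (av p) (n : k)
        calc av p (n : k) * (av p (u : k) * av p w) ≤ 1 * (1 * av p w) := by gcongr
          _ = av p w := by ring
      refine na_add_lt hna ((hm 2 b (x ^ 2)).trans_lt (by rw [map_pow]; exact t2))
        (na_add_lt hna ((hm 8 c x).trans_lt t1) (na_add_lt hna ?_ ?_))
      · rw [map_pow]
        refine lt_of_le_of_lt ?_ t0
        exact pow_le_one₀ (apply_nonneg _ _) hb
      · exact ((hm 4 a c).trans hc).trans_lt t0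
    have h5 : av p (x ^ 4) = t ^ 4 := by rw [map_pow]
    rw [na_add_eq hna (by rw [h5]; exact hlt), h5]
  have e3 : 0 < av p (dD (a : k) b c x) := (av p).pos hd
  unfold dd
  rw [map_div₀, e2, le_div_iff₀ e3]
  calc t * av p (dD (a : k) b c x) ≤ t * t ^ 3 := by gcongr
    _ = t ^ 4 := by ring

lemma av_it {p : HeightOneSpectrum (𝓞 k)} {a b c : 𝓞 k} {x : k} (hx : 1 < av p x) (n : ℕ)
    (hg : Good (a : k) b c x n) : av p x ≤ av p (it (a : k) b c x n) := by
  induction n with
  | zero => exact le_rfl
  | succ n ih =>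
    have h1 := ih (hg.mono (Nat.le_succ n))
    exact h1.trans (av_dd (lt_of_lt_of_le hx h1) (hg n (Nat.lt_succ_self n)))

/-- the abscissa of a point of the kernel of the reduction is divisible by the square of the
prime -/
lemma av_point {p : HeightOneSpectrum (𝓞 k)} {a b c : 𝓞 k} {x y : k} (hx : 1 < av p x)
    (h : y ^ 2 = ff (a : k) b c x) : qq p ^ 2 ≤ av p x := by
  have hna := av_na p
  have ha := av_int p a
  have hb := av_int p b
  have hc := av_int p c
  set t := av p x with ht
  have ht0 : 0 < t := by linarith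
  have hx0 : x ≠ 0 := by
    rintro rfl
    simp at ht
    linarith
  have e2 : av p (ff (a : k) b c x) = t ^ 3 := by
    have e : ff (a : k) b c x = x ^ 3 + (a * x ^ 2 + (b * x + c)) := by
      unfold ff
      ring
    have h5 : av p (x ^ 3) = t ^ 3 := by rw [map_pow]
    rw [e, na_add_eq hna, h5]
    rw [h5]
    have t2 : t ^ 2 < t ^ 3 := pow_lt_pow_right₀ hx (by norm_num)
    have t1 : t < t ^ 3 := by
      calc t = t ^ 1 := (pow_one t).symm
        _ < t ^ 3 := pow_lt_pow_right₀ hx (by norm_num)
    have t0 : 1 < t ^ 3 := one_lt_pow₀ hx (by norm_num)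
    refine na_add_lt hna ?_ (na_add_lt hna ?_ (hc.trans_lt t0))
    · rw [map_mul, map_pow, ← ht]
      refine lt_of_le_of_lt ?_ t2
      calc av p (a : k) * t ^ 2 ≤ 1 * t ^ 2 := by gcongr
        _ = t ^ 2 := one_mul _
    · rw [map_mul, ← ht]
      refine lt_of_le_of_lt ?_ t1
      calc av p (b : k) * t ≤ 1 * t := by gcongr
        _ = t := one_mul _
  have e3 : av p (y / x) ^ 2 = t := by
    rw [map_div₀, div_pow, ← map_pow, h, e2, ← ht]
    field_simp
  have e4 : 1 < av p (y / x) := by
    by_contra hcon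
    push Not at hcon
    have h1 := pow_le_one₀ (n := 2) (apply_nonneg (av p) (y / x)) hcon
    rw [e3] at h1
    linarith
  have e5 := qq_le_av p e4
  have h6 := one_lt_qq p
  rw [← e3]
  gcongr

/-- the local inequality -/
lemma local_le {p : HeightOneSpectrum (𝓞 k)} {a b c : 𝓞 k} {x y : k} (n : ℕ)
    (hg : Good (a : k) b c x n) (h : y ^ 2 = ff (a : k) b c x) :
    min (Real.log (qq p)) ((Real.posLog (av p x) + Real.posLog (av p (it (a : k) b c x n))) / 2) ≤
      Real.posLog (av p (it (a : k) b c x n)) / 2 := by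
  by_cases h1 : 1 < av p (it (a : k) b c x n)
  · have h2 := av_point h1 (yy_prop h n hg).1
    have h3 := one_lt_qq p
    refine (min_le_left _ _).trans ?_
    have h4 : Real.log (qq p ^ 2) ≤ Real.log (av p (it (a : k) b c x n)) :=
      Real.log_le_log (by positivity) h2
    rw [Real.log_pow] at h4
    push_cast at h4
    have h5 : Real.log (av p (it (a : k) b c x n)) ≤ Real.posLog (av p (it (a : k) b c x n)) :=
      le_max_right _ _
    linarith
  · have h2 : av p x ≤ 1 := by
      by_contra h3
      push Not at h3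
      have := av_it h3 n hg
      linarith
    have h3 : Real.posLog (av p x) = 0 := by
      rw [Real.posLog_eq_zero_iff]
      rw [abs_of_nonneg (apply_nonneg _ _)]
      exact h2
    rw [h3, zero_add]
    exact min_le_right _ _

/-- finitely many primes -/
lemma posLog_support (x : k) : (Function.support fun p : HeightOneSpectrum (𝓞 k) =>
    Real.posLog (av p x)).Finite := by
  by_cases hx : x = 0
  · subst hx
    simp
  · have h1 : (Function.mulSupport fun w : FinitePlace k => w x).Finite :=
      FinitePlace.hasFiniteMulSupport hx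
    refine Set.Finite.of_finite_image (f := fun p => (FinitePlace.equivHeightOneSpectrum (K := k)).symm p)
      (h1.subset ?_) (fun p _ q _ h => (FinitePlace.equivHeightOneSpectrum (K := k)).symm.injective h)
    rintro _ ⟨p, hp, rfl⟩
    rw [Function.mem_mulSupport]
    intro h2
    apply hp
    have h3 : av p x = 1 := by
      rw [← mk_eq_av]
      exact h2
    show Real.posLog (av p x) = 0
    rw [h3, Real.posLog_eq_zero_iff]
    simp

/-- the sum over the primes is at most the height -/
lemma finsum_le_height (x : k) : ∑ᶠ p : HeightOneSpectrum (𝓞 k), Real.posLog (av p x) ≤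
    logHeight₁ x := by
  have h1 : ∑ᶠ p : HeightOneSpectrum (𝓞 k), Real.posLog (av p x) =
      ∑ᶠ w : FinitePlace k, Real.posLog (w x) := by
    rw [← finsum_comp_equiv (FinitePlace.equivHeightOneSpectrum (K := k)).symm]
    refine finsum_congr fun p => ?_
    rw [← mk_eq_av]
    rfl
  rw [h1, NumberField.logHeight₁_eq]
  have h2 : 0 ≤ ∑ v : InfinitePlace k, (v.mult : ℝ) * Real.posLog (v x) :=
    Finset.sum_nonneg fun v _ => mul_nonneg (Nat.cast_nonneg _) Real.posLog_nonneg
  linarith

/-- the truncated counting function on the curve -/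
theorem trunc_le (S : Finset (HeightOneSpectrum (𝓞 k))) {a b c : 𝓞 k} {x y : k} (n : ℕ)
    (hg : Good (a : k) b c x n) (h : y ^ 2 = ff (a : k) b c x) :
    ∑ᶠ p ∈ {p : HeightOneSpectrum (𝓞 k) | p ∉ S}, min (Real.log (qq p))
      ((Real.posLog (av p x) + Real.posLog (av p (it (a : k) b c x n))) / 2) ≤
      logHeight₁ (it (a : k) b c x n) / 2 := by
  set x' := it (a : k) b c x n with hx'
  have h1 : ∑ᶠ p : HeightOneSpectrum (𝓞 k), Real.posLog (av p x') / 2 ≤ logHeight₁ x' / 2 := by
    have h2 := finsum_le_height x'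
    have h3 : ∑ᶠ p : HeightOneSpectrum (𝓞 k), Real.posLog (av p x') / 2 =
        (∑ᶠ p : HeightOneSpectrum (𝓞 k), Real.posLog (av p x')) / 2 := by
      simp only [div_eq_mul_inv]
      rw [finsum_mul]
    rw [h3]
    linarith
  refine le_trans ?_ h1
  rw [finsum_mem_def]
  have hs : (Function.support fun p : HeightOneSpectrum (𝓞 k) =>
      Real.posLog (av p x') / 2).Finite := by
    refine (posLog_support x').subset ?_
    intro p hp hp0
    apply hp
    show Real.posLog (av p x') / 2 = 0
    have : Real.posLog (av p x') = 0 := hp0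
    rw [this, zero_div]
  have hnn : ∀ p : HeightOneSpectrum (𝓞 k), 0 ≤ Real.posLog (av p x') / 2 := fun p => by
    have := Real.posLog_nonneg (x := av p x')
    linarith
  have hle : ∀ p : HeightOneSpectrum (𝓞 k), ({p : HeightOneSpectrum (𝓞 k) | p ∉ S}.indicator
      (fun p => min (Real.log (qq p)) ((Real.posLog (av p x) + Real.posLog (av p x')) / 2))) p ≤
        Real.posLog (av p x') / 2 := by
    intro p
    by_cases hp : p ∈ {p : HeightOneSpectrum (𝓞 k) | p ∉ S}
    · rw [Set.indicator_of_mem hp]
      exact local_le n hg h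
    · rw [Set.indicator_of_notMem hp]
      exact hnn p
  have hnn' : ∀ p : HeightOneSpectrum (𝓞 k), 0 ≤ ({p : HeightOneSpectrum (𝓞 k) | p ∉ S}.indicator
      (fun p => min (Real.log (qq p)) ((Real.posLog (av p x) + Real.posLog (av p x')) / 2))) p := by
    intro p
    refine Set.indicator_nonneg (fun q _ => ?_) p
    have h3 := one_lt_qq q
    have h4 := Real.posLog_nonneg (x := av q x')
    have h5 := Real.posLog_nonneg (x := av q x)
    exact le_min (Real.log_nonneg h3.le) (by linarith)
  refine finsum_le_finsum' ?_ hs hle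
  refine hs.subset ?_
  intro p hp hp0
  apply hp
  have h6 : Real.posLog (av p x') / 2 = 0 := hp0
  exact le_antisymm (h6 ▸ hle p) (hnn' p)

end Pool.Agent.Helper892.TC
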