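import Pool.Agent.Helper892.TC.Trunc

/-!
The exceptional set of the truncated inequality on the square of an elliptic curve.
-/

set_option autoImplicit false

open IsDedekindDomain NumberField Module Height Polynomial

namespace Pool.Agent.Helper892.TC

open Pool.Agent.Helper892.VE Pool.Agent.Helper892.ER Pool.Agent.Y720.MZ

variable {k : Type} [Field k] [NumberField k]

/-- the truncated counting function -/
noncomputable def tc (S : Finset (HeightOneSpectrum (𝓞 k))) (x₀ x₁ : k) : ℝ :=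
  ∑ᶠ p ∈ {p : HeightOneSpectrum (𝓞 k) | p ∉ S}, min (Real.log (qq p))
      ((Real.posLog (av p x₀) + Real.posLog (av p x₁)) / 2)

lemma tc_comm (S : Finset (HeightOneSpectrum (𝓞 k))) (x₀ x₁ : k) : tc S x₀ x₁ = tc S x₁ x₀ := by
  unfold tc
  simp only [add_comm]

theorem infinite_abs (a b c : 𝓞 k)
    (hE : {P : k × k | P.2 ^ 2 = ff (a : k) b c P.1}.Infinite) :
    {x : k | ∃ y, y ^ 2 = ff (a : k) b c x}.Infinite := by
  intro hfin
  apply hE
  refine (hfin.biUnion (t := fun x => {P : k × k | P.1 = x ∧ P.2 ^ 2 = ff (a : k) b c x}) ?_).subset ?_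
  · intro x _
    by_cases hy : ∃ y : k, y ^ 2 = ff (a : k) b c x
    · obtain ⟨y, hy⟩ := hy
      refine (Set.toFinite {(x, y), (x, -y)}).subset ?_
      rintro ⟨x', y'⟩ ⟨rfl, h2⟩
      have h3 : (y' - y) * (y' + y) = 0 := by
        have : y' ^ 2 = ff (a : k) b c x' := h2
        linear_combination this - hy
      rcases mul_eq_zero.1 h3 with h4 | h4
      · left; rw [sub_eq_zero.1 h4]
      · right
        rw [Set.mem_singleton_iff, eq_neg_of_add_eq_zero_left h4]
    · convert Set.finite_empty (α := k × k)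
      ext ⟨x', y'⟩
      simp only [Set.mem_ofPred_eq, Set.mem_empty_iff_false, iff_false]
      rintro ⟨-, h⟩
      exact hy ⟨_, h⟩
  · rintro ⟨x, y⟩ h
    simp only [Set.mem_iUnion]
    exact ⟨x, ⟨y, h⟩, rfl, h⟩

theorem main (a b c : 𝓞 k) (hD : dsc (a : k) b c ≠ 0)
    (hE : {P : k × k | P.2 ^ 2 = ff (a : k) b c P.1}.Infinite)
    (S : Finset (HeightOneSpectrum (𝓞 k))) (G : k[X][X]) (hG : G ≠ 0) (ε C : ℝ)
    (hV : ∀ x₀ y₀ x₁ y₁ : k, y₀ ^ 2 = ff (a : k) b c x₀ → y₁ ^ 2 = ff (a : k) b c x₁ →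
      G.evalEval x₀ x₁ ≠ 0 → (logHeight₁ x₀ + logHeight₁ x₁) / 2 ≤ tc S x₀ x₁ +
        ε * ((logHeight₁ x₀ + logHeight₁ x₁) / 2) + C)
    (n : ℕ) (hn : ε * (4 ^ n + 1) < 1) :
    (∃ i, 4 ^ n ≤ (G.coeff i).natDegree) ∧ 4 ^ n ≤ G.natDegree := by
  obtain ⟨B, hB, hit⟩ := it_height hD n
  have hX := infinite_abs a b c hE
  set δ : ℝ := 1 - ε * (4 ^ n + 1) with hδ
  have hδ0 : 0 < δ := by linarith
  set T : ℝ := (|ε| * B + 2 * C) / δ with hT
  have hbig : {x : k | (∃ y, y ^ 2 = ff (a : k) b c x) ∧ Good (a : k) b c x n ∧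
      T < logHeight₁ x}.Infinite := by
    intro hfin
    apply hX
    refine ((hfin.union (finite_not_good hD n)).union
      (NumberField.finite_setOfPred_logHeight₁_le k T)).subset ?_
    intro x hx
    by_cases h1 : Good (a : k) b c x n
    · by_cases h2 : T < logHeight₁ x
      · left; left; exact ⟨hx, h1, h2⟩
      · right; exact not_lt.1 h2
    · left; right; exact h1
  have key : ∀ x ∈ {x : k | (∃ y, y ^ 2 = ff (a : k) b c x) ∧ Good (a : k) b c x n ∧
      T < logHeight₁ x}, G.evalEval x (it (a : k) b c x n) = 0 ∧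
        G.evalEval (it (a : k) b c x n) x = 0 := by
    rintro x ⟨⟨y, hxy⟩, hg, hTx⟩
    have g3 := hit x hg n le_rfl
    have g4 := trunc_le S n hg hxy
    have g5 := (yy_prop hxy n hg).1
    set x' := it (a : k) b c x n with hx'
    have hcontra : ¬ ((logHeight₁ x + logHeight₁ x') / 2 ≤ tc S x x' +
        ε * ((logHeight₁ x + logHeight₁ x') / 2) + C) := by
      intro hle
      have g6 : tc S x x' ≤ logHeight₁ x' / 2 := g4
      have g7 : ε * (logHeight₁ x' - 4 ^ n * logHeight₁ x) ≤ |ε| * B := by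
        calc ε * (logHeight₁ x' - 4 ^ n * logHeight₁ x)
            ≤ |ε * (logHeight₁ x' - 4 ^ n * logHeight₁ x)| := le_abs_self _
          _ = |ε| * |logHeight₁ x' - 4 ^ n * logHeight₁ x| := abs_mul _ _
          _ ≤ |ε| * B := by gcongr
      have g8 : δ * logHeight₁ x ≤ |ε| * B + 2 * C := by
        rw [hδ]
        nlinarith
      have g9 : logHeight₁ x ≤ T := by
        rw [hT, le_div_iff₀ hδ0, mul_comm]
        exact g8
      exact absurd hTx (not_lt.2 g9)
    constructor
    · by_contra hne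
      exact hcontra (hV x y x' _ hxy g5 hne)
    · by_contra hne
      have h6 := hV x' _ x y g5 hxy hne
      rw [tc_comm, add_comm (logHeight₁ x') (logHeight₁ x)] at h6
      exact hcontra h6
  constructor
  · exact degree_of_vanish hD n G hG (hbig.mono fun x hx => ⟨hx.2.1, (key x hx).1⟩)
  · exact degree_of_vanish' hD n G hG (hbig.mono fun x hx => ⟨hx.2.1, (key x hx).2⟩)

end Pool.Agent.Helper892.TC
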